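import Pool.Agent.Work.MP_64ea0f_cs.InterfaceG1

set_option autoImplicit false

/-! # NRC: criterion for nearness -/

namespace Pool.CS
namespace NRC

/-- the functional `v ↦ c * B v μ` -/
noncomputable def fun1 (hBAS : Stmt_BAS) (D : Rd) (μ : D.V) (c : ℝ) : D.V →ₗ[ℝ] ℝ where
  toFun v := c * D.B v μ
  map_add' v w := by
    have h := (hBAS D).2.1 1 1 v w μ
    rw [one_smul, one_smul] at h
    rw [h]; ring
  map_smul' a v := by
    have h := (hBAS D).2.1 a 0 v 0 μ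
    rw [zero_smul, add_zero] at h
    rw [h, RingHom.id_apply, smul_eq_mul]; ring

theorem fun1_apply (hBAS : Stmt_BAS) (D : Rd) (μ : D.V) (c : ℝ) (v : D.V) :
    fun1 hBAS D μ c v = c * D.B v μ := rfl

theorem neg_left (hBAS : Stmt_BAS) (D : Rd) (v w : D.V) : D.B (-v) w = - D.B v w := by
  have h := (hBAS D).2.1 (-1) 0 v 0 w
  rw [zero_smul, add_zero, neg_smul, one_smul] at h
  rw [h]; ring

/-- nearness from a lower bound -/
theorem near_of (hBAS : Stmt_BAS) (D : Rd) {κ0 κ : ℝ} (hκ0 : 0 < κ0) (hκ : κ0 ≤ κ) (μ δ : D.V)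
    (x : Set D.V) (ε : ℝ) (h1 : ε * D.B δ μ = κ)
    (h2 : ∀ φ ∈ x, φ ∈ D.Fd δ → -1 ≤ ε * D.B φ μ) : D.Near ∅ (1 / κ0) x δ := by
  have hκp : 0 < κ := lt_of_lt_of_le hκ0 hκ
  refine ⟨fun1 hBAS D μ (ε / κ), ?_, ?_, ?_⟩
  · rw [fun1_apply, div_mul_eq_mul_div, h1, div_self hκp.ne']
  · intro φ _ hφ
    have : φ = 0 := funext fun s => hφ s (Set.notMem_empty s)
    rw [this, map_zero]
  · intro φ hφ hF
    rw [fun1_apply, div_mul_eq_mul_div]
    have h3 := h2 φ hφ hF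
    have h4 : 1 / κ ≤ 1 / κ0 := one_div_le_one_div_of_le hκ0 hκ
    have h5 : -1 / κ ≤ ε * D.B φ μ / κ := div_le_div_of_nonneg_right h3 hκp.le
    have h6 : -1 / κ = -(1 / κ) := by ring
    linarith

end NRC

theorem stmt_NRC (hBAS : Stmt_BAS) (_hSGN : Stmt_SGN) (hVX1 : Stmt_VX1) (hTHR : Stmt_THR)
    (hORT : Stmt_ORT) (hSBL : Stmt_SBL) : Stmt_NRC := by
  intro D
  obtain ⟨hO, ⟨κ0, hκ0, hκ⟩, -, -⟩ := hORT D
  have hsym : ∀ v w, D.B v w = D.B w v := (hBAS D).1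
  obtain ⟨-, -, -, -, -, -, -, -, hneg, hup, -⟩ := hVX1 D
  refine ⟨1 / κ0, (one_div_pos.mpr hκ0).le, fun x hx δ hδ => ?_⟩
  have key1 : ∀ μ ∈ x, 0 < D.B μ δ → D.Near ∅ (1 / κ0) x δ := by
    intro μ hμ hpos
    have hk : κ0 ≤ D.B μ δ := by
      rcases hκ δ hδ μ (hx.sub hμ) with h | h
      · rw [h] at hpos; exact absurd hpos (lt_irrefl 0)
      · rwa [abs_of_pos hpos] at h
    refine NRC.near_of hBAS D hκ0 hk μ δ x 1 (by rw [one_mul, hsym]) ?_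
    intro φ hφ hF
    by_contra hcon
    rw [one_mul, not_le] at hcon
    have hF' : -φ ∈ D.Fd δ := (hTHR D δ hδ φ hF).2.2.2.1
    have h1 : 1 ≤ D.B (-φ) μ := by rw [NRC.neg_left hBAS]; linarith
    have h2 := (hSBL D δ hδ (-φ) hF' μ (hx.sub hμ) h1).2 hpos
    exact hneg x hx φ hφ (hup x hx μ hμ (-φ) hF'.1 h2)
  refine ⟨key1, ?_⟩
  intro μ hμ hne
  rcases lt_or_gt_of_ne hne with hlt | hgt
  · have hk : κ0 ≤ -D.B μ δ := by
      rcases hκ δ hδ μ (hx.sub hμ.1) with h | h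
      · exact absurd h hne
      · rwa [abs_of_neg hlt] at h
    refine NRC.near_of hBAS D hκ0 hk μ δ x (-1) (by rw [hsym δ μ]; ring) ?_
    intro φ hφ hF
    by_contra hcon
    rw [not_le] at hcon
    have h1 : 1 ≤ D.B φ μ := by linarith
    have h2 := (hSBL D δ hδ φ hF μ (hx.sub hμ.1) h1).1 hlt
    have h3 := hμ.2 φ hφ h2
    rw [← h3] at hlt
    exact absurd ((hO δ hδ).1 φ hF) hlt.ne
  · exact key1 μ hμ.1 hgt

end Pool.CS
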