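import Pool.Agent.Work.MP_64ea0f_cs.InterfaceG3

set_option autoImplicit false

/-! # QLS: the quotient of an action of involutions by a relation -/

namespace Pool.CS
namespace QLS

variable {Λ Y : Type} {G : SimpleGraph Λ} (L : LS G Y) (s : Setoid Y)

/-- `a` moves the class `v` -/
def Mov (a : Λ) (v : Quotient s) : Prop := ∃ y, Quotient.mk s y = v ∧ L.τ a y ≠ y

open Classical in
/-- the induced map on classes -/
noncomputable def tau (a : Λ) (v : Quotient s) : Quotient s :=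
  if h : Mov L s a v then Quotient.mk s (L.τ a h.choose) else v

variable {L s}

theorem tau_not {a : Λ} {v : Quotient s} (h : ¬ Mov L s a v) : tau L s a v = v := by
  unfold tau
  rw [dif_neg h]

theorem tau_mk (h1 : ∀ a y y', s.r y y' → L.τ a y ≠ y → L.τ a y' ≠ y' → s.r (L.τ a y) (L.τ a y'))
    {a : Λ} {x : Y} (hx : L.τ a x ≠ x) :
    tau L s a (Quotient.mk s x) = Quotient.mk s (L.τ a x) := by
  have h : Mov L s a (Quotient.mk s x) := ⟨x, rfl, hx⟩
  unfold tau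
  rw [dif_pos h]
  have h2 := h.choose_spec
  exact Quotient.sound (h1 a _ _ (Quotient.exact h2.1) h2.2 hx)

theorem mov_tau {a : Λ} {x : Y} (hx : L.τ a x ≠ x) : L.τ a (L.τ a x) ≠ L.τ a x := by
  rw [L.inv]
  exact fun h => hx h.symm

theorem mov_com {a b : Λ} (hab : G.Adj a b) {x : Y} (hx : L.τ b x ≠ x) :
    L.τ b (L.τ a x) ≠ L.τ a x := by
  intro h
  rw [← L.com a b hab] at h
  have h2 := congrArg (L.τ a) h
  rw [L.inv, L.inv] at h2
  exact hx h2

/-- if only `a` moves `v` then `b` does not move `τ a v` -/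
theorem com_aux
    (h1 : ∀ a y y', s.r y y' → L.τ a y ≠ y → L.τ a y' ≠ y' → s.r (L.τ a y) (L.τ a y'))
    (h3 : ∀ y, ∃ z, s.r y z ∧ ∀ a y', s.r y y' → L.τ a y' ≠ y' → L.τ a z ≠ z)
    {a b : Λ} (hab : G.Adj a b) {v : Quotient s} (ha : Mov L s a v) (hb : ¬ Mov L s b v) :
    tau L s b (tau L s a v) = tau L s a v := by
  obtain ⟨y, rfl, hy⟩ := ha
  rw [tau_mk h1 hy]
  apply tau_not
  rintro ⟨w, hw, hwb⟩
  apply hb
  obtain ⟨z, hz, hzc⟩ := h3 (L.τ a y)
  have hza : L.τ a z ≠ z := hzc a _ (s.refl _) (mov_tau hy)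
  have hzb : L.τ b z ≠ z := hzc b w (s.symm (Quotient.exact hw)) hwb
  have h4 := h1 a _ _ hz (mov_tau hy) hza
  rw [L.inv] at h4
  exact ⟨L.τ a z, Quotient.sound (s.symm h4), mov_com hab hzb⟩

theorem com_ac
    (h1 : ∀ a y y', s.r y y' → L.τ a y ≠ y → L.τ a y' ≠ y' → s.r (L.τ a y) (L.τ a y'))
    (h3 : ∀ y, ∃ z, s.r y z ∧ ∀ a y', s.r y y' → L.τ a y' ≠ y' → L.τ a z ≠ z)
    {a b : Λ} (hab : G.Adj a b) (v : Quotient s) :
    tau L s a (tau L s b v) = tau L s b (tau L s a v) := by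
  by_cases ha : Mov L s a v
  · by_cases hb : Mov L s b v
    · obtain ⟨y, hy, hya⟩ := ha
      obtain ⟨y', hy', hyb⟩ := hb
      obtain ⟨z, hz, hzc⟩ := h3 y
      have hza : L.τ a z ≠ z := hzc a y (s.refl _) hya
      have hzb : L.τ b z ≠ z := hzc b y' (Quotient.exact (hy.trans hy'.symm)) hyb
      have hv : v = Quotient.mk s z := by rw [← hy]; exact Quotient.sound hz
      rw [hv, tau_mk h1 hza, tau_mk h1 hzb, tau_mk h1 (mov_com hab.symm hza),
        tau_mk h1 (mov_com hab hzb), L.com a b hab]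
    · rw [com_aux h1 h3 hab ha hb, tau_not hb]
  · by_cases hb : Mov L s b v
    · rw [com_aux h1 h3 hab.symm hb ha, tau_not ha]
    · rw [tau_not hb, tau_not ha, tau_not hb]

theorem inv_ac
    (h1 : ∀ a y y', s.r y y' → L.τ a y ≠ y → L.τ a y' ≠ y' → s.r (L.τ a y) (L.τ a y'))
    (a : Λ) (v : Quotient s) : tau L s a (tau L s a v) = v := by
  by_cases ha : Mov L s a v
  · obtain ⟨y, rfl, hy⟩ := ha
    rw [tau_mk h1 hy, tau_mk h1 (mov_tau hy), L.inv]
  · rw [tau_not ha, tau_not ha]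

end QLS

theorem stmt_QLS : Stmt_QLS := by
  intro Λ G Y L r hr h1 h2 h3
  let s : Setoid Y := ⟨r, hr⟩
  refine ⟨Quotient s, Quotient.mk s,
    ⟨QLS.tau L s, QLS.inv_ac (s := s) h1, fun a b hab v => QLS.com_ac (s := s) h1 h3 hab v⟩,
    ?_, ?_, ?_, ?_⟩
  · intro v
    obtain ⟨x, rfl⟩ := Quotient.exists_rep v
    exact ⟨x, rfl⟩
  · intro x y
    exact ⟨fun h => Quotient.exact h, fun h => Quotient.sound h⟩
  · intro a x hx
    have h4 : QLS.tau L s a (Quotient.mk s x) = Quotient.mk s (L.τ a x) := QLS.tau_mk h1 hx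
    refine ⟨h4, ?_⟩
    change QLS.tau L s a (Quotient.mk s x) ≠ Quotient.mk s x
    rw [h4]
    intro h5
    exact h2 a x hx (hr.symm (Quotient.exact h5))
  · intro v
    obtain ⟨y, rfl⟩ := Quotient.exists_rep v
    obtain ⟨z, hz, hzc⟩ := h3 y
    refine ⟨z, Quotient.sound (hr.symm hz), ?_⟩
    intro a ha
    by_contra hcon
    apply ha
    apply QLS.tau_not
    rintro ⟨w, hw, hwa⟩
    exact hzc a w (hr.symm (Quotient.exact hw)) hwa hcon

end Pool.CS
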